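import Pool.Agent.L5helper66.LQ.Main

/-!
# Leep's bound `u(L) ≤ (d + 1) / 2 * u(K)` is never attained for `d = [L : K] ≥ 4`

For every field `K` with finite u-invariant (of any characteristic) and every extension `L / K` of
finite degree `d ≥ 4` we have `2 d u(L) + 2 (d - 3) ≤ d (d + 1) u(K)`; in particular
`u(L) < (d + 1) / 2 * u(K)`. A field with finite u-invariant is nonreal.
-/

set_option autoImplicit false

open Module

namespace Pool.Agent.Results.MP_c32625_al.LeepExtensionNotSharp

universe u v

/-- the system u-invariant `u_r(K)`: the supremum of the dimensions of the anisotropic systems of `r`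
quadratic forms over `K` -/
noncomputable def uInv (K : Type u) [Field K] (r : ℕ) : ℕ∞ :=
  ⨆ (n : ℕ) (_ : ∃ q : Fin r → QuadraticForm K (Fin n → K), ∀ v, (∀ i, q i v = 0) → v = 0), (n : ℕ∞)

theorem le_uInv {K : Type u} [Field K] (r n : ℕ) (q : Fin r → QuadraticForm K (Fin n → K))
    (hq : ∀ v, (∀ i, q i v = 0) → v = 0) : (n : ℕ∞) ≤ uInv K r :=
  le_iSup₂_of_le (f := fun (n : ℕ) (_ : ∃ q : Fin r → QuadraticForm K (Fin n → K),
    ∀ v, (∀ i, q i v = 0) → v = 0) => (n : ℕ∞)) n ⟨q, hq⟩ le_rfl

open Pool.Agent.L5helper66.LQ (UB main_bound)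

theorem ub_of_uInv {K : Type u} [Field K] {n : ℕ} (h : uInv K 1 = n) : UB K n := by
  intro q
  by_contra hcon
  push Not at hcon
  have h1 := le_uInv (K := K) 1 (n + 1) (fun _ => q) (by
    intro v hv
    by_contra hne
    exact hcon v hne (hv 0))
  rw [h] at h1
  have h2 : n + 1 ≤ n := by exact_mod_cast h1
  omega

theorem one_le_uInv (K : Type u) [Field K] : 1 ≤ uInv K 1 := by
  have h1 := le_uInv (K := K) 1 1 (fun _ => QuadraticMap.linMulLin (LinearMap.proj 0)
    (LinearMap.proj 0)) (by
    intro v hv
    have h2 := hv 0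
    simp only [QuadraticMap.linMulLin_apply, LinearMap.proj_apply, mul_self_eq_zero] at h2
    funext i
    rw [Subsingleton.elim i 0, h2]
    rfl)
  exact_mod_cast h1

/-- **Theorem.** Let `K` be a field with `u(K) < ∞` and `L / K` an extension of finite degree
`d ≥ 4`. Then `u(L)` is finite, `u(L) < (d + 1) / 2 * u(K)`, and more precisely
`2 d u(L) + 2 (d - 3) ≤ d (d + 1) u(K)`. -/
theorem result (K : Type u) (L : Type v) [Field K] [Field L] [Algebra K L] [FiniteDimensional K L]
    (hK : uInv K 1 ≠ ⊤) (hd : 4 ≤ finrank K L) :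
    ∃ n m : ℕ, uInv K 1 = n ∧ uInv L 1 = m ∧ 2 * m < (finrank K L + 1) * n ∧
      2 * finrank K L * m + 2 * (finrank K L - 3) ≤ finrank K L * (finrank K L + 1) * n := by
  obtain ⟨n, hn⟩ := ENat.ne_top_iff_exists.1 hK
  have hn0 : 0 < n := by
    have := one_le_uInv K
    rw [← hn] at this
    have : 1 ≤ n := by exact_mod_cast this
    omega
  have hub := ub_of_uInv hn.symm
  have key : ∀ N : ℕ, ∀ q : Fin 1 → QuadraticForm L (Fin N → L),
      (∀ v, (∀ i, q i v = 0) → v = 0) →
      2 * finrank K L * N + 2 * (finrank K L - 3) ≤ finrank K L * (finrank K L + 1) * n := by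
    intro N q hq
    have h1 := main_bound (K := K) (L := L) (E := Fin N → L) hn0 hub (q 0) (by
      intro x hx
      refine hq x fun i => ?_
      rw [Subsingleton.elim i 0]
      exact hx) (by omega)
    have h2 : finrank K (Fin N → L) = N * finrank K L := by
      rw [Module.finrank_pi_fintype]
      simp
    rw [h2] at h1
    have h3 : 2 * (N * finrank K L) = 2 * finrank K L * N := by ring
    rw [h3] at h1
    exact h1
  have hfin : uInv L 1 ≤ ((finrank K L * (finrank K L + 1) * n : ℕ) : ℕ∞) := by
    refine iSup₂_le fun N hN => ?_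
    obtain ⟨q, hq⟩ := hN
    have h1 := key N q hq
    have h2 : N ≤ 2 * finrank K L * N := Nat.le_mul_of_pos_left _ (by omega)
    have h3 : N ≤ finrank K L * (finrank K L + 1) * n := by omega
    exact_mod_cast h3
  obtain ⟨m, hm⟩ := ENat.ne_top_iff_exists.1 (ne_top_of_le_ne_top (ENat.natCast_ne_top _) hfin)
  have hm' : 2 * finrank K L * m + 2 * (finrank K L - 3) ≤
      finrank K L * (finrank K L + 1) * n := by
    by_contra hcon
    -- the supremum is attained
    have h0 : ∃ q : Fin 1 → QuadraticForm L (Fin m → L), ∀ v, (∀ i, q i v = 0) → v = 0 := by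
      by_contra hno
      have h1 : uInv L 1 ≤ ((m - 1 : ℕ) : ℕ∞) := by
        refine iSup₂_le fun N hN => ?_
        have h2 : (N : ℕ∞) ≤ uInv L 1 := by
          obtain ⟨q, hq⟩ := hN
          exact le_uInv 1 N q hq
        rw [← hm] at h2
        have h3 : N ≤ m := by exact_mod_cast h2
        have h4 : N ≠ m := by
          rintro rfl
          exact hno hN
        have h5 : N ≤ m - 1 := by omega
        exact_mod_cast h5
      rw [← hm] at h1
      have h2 : m ≤ m - 1 := by exact_mod_cast h1
      have h3 := one_le_uInv L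
      rw [← hm] at h3
      have h4 : 1 ≤ m := by exact_mod_cast h3
      omega
    obtain ⟨q, hq⟩ := h0
    exact hcon (key m q hq)
  refine ⟨n, m, hn.symm, hm.symm, ?_, hm'⟩
  by_contra hcon
  push Not at hcon
  have h1 : finrank K L * ((finrank K L + 1) * n) ≤ finrank K L * (2 * m) :=
    Nat.mul_le_mul_left _ hcon
  have h2 : finrank K L * ((finrank K L + 1) * n) = finrank K L * (finrank K L + 1) * n := by ring
  have h3 : finrank K L * (2 * m) = 2 * finrank K L * m := by ring
  omega

end Pool.Agent.Results.MP_c32625_al.LeepExtensionNotSharp
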